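import Pool.Agent.H27.HB.TA

/-!
# ELQ: the Euler-Lagrange equation of the extremals
-/

set_option autoImplicit false

namespace Pool.Agent.H4.HB
open MeasureTheory Set Filter Topology Pool.Agent.H80.HS Pool.Agent.H93.HQ Pool.Agent.H27.HB
open scoped ContDiff ENNReal

section General

variable {α : Type*} [MeasurableSpace α] {μ : Measure α} {E : Type*} [NormedAddCommGroup E]
  [InnerProductSpace ℝ E]

theorem norm_inner_pow_le {p : ℝ} (hp : 1 < p) (x h : E) :
    ‖inner ℝ (‖x‖ ^ (p - 2) • x) h‖ ≤ ‖x‖ ^ (p - 1) * ‖h‖ := by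
  have h1 : ‖inner ℝ (‖x‖ ^ (p - 2) • x) h‖ ≤ ‖‖x‖ ^ (p - 2) • x‖ * ‖h‖ := norm_inner_le_norm _ _
  have h2 : ‖‖x‖ ^ (p - 2) • x‖ = ‖x‖ ^ (p - 1) := by
    rw [norm_smul, Real.norm_of_nonneg (Real.rpow_nonneg (norm_nonneg x) _)]
    rcases eq_or_ne x 0 with h0 | h0
    · subst h0
      rw [norm_zero, mul_zero, Real.zero_rpow (by linarith)]
    · have hx : 0 < ‖x‖ := norm_pos_iff.2 h0
      conv_lhs => rw [← Real.rpow_one ‖x‖, ← Real.rpow_mul hx.le, one_mul, ← Real.rpow_add hx]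
      congr 1
      ring
  rw [h2] at h1
  exact h1

theorem deriv_pow {p : ℝ} (hp : 1 < p) (g h : α → E) (hg : MemLp g (ENNReal.ofReal p) μ)
    (hh : MemLp h (ENNReal.ofReal p) μ) :
    Integrable (fun z => inner ℝ (‖g z‖ ^ (p - 2) • g z) (h z)) μ ∧
    HasDerivAt (fun s : ℝ => ∫ z, ‖g z + s • h z‖ ^ p ∂μ)
      (p * ∫ z, inner ℝ (‖g z‖ ^ (p - 2) • g z) (h z) ∂μ) 0 := by
  have hp0 : ENNReal.ofReal p ≠ 0 := by
    rw [Ne, ENNReal.ofReal_eq_zero, not_le]
    linarith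
  have hpt : ENNReal.ofReal p ≠ ⊤ := ENNReal.ofReal_ne_top
  have hpr : (ENNReal.ofReal p).toReal = p := ENNReal.toReal_ofReal (by linarith)
  have hb : MemLp (fun z => ‖g z‖ + ‖h z‖) (ENNReal.ofReal p) μ := hg.norm.add hh.norm
  have hbi : Integrable (fun z => p * (‖g z‖ + ‖h z‖) ^ p) μ := by
    have h1 := hb.integrable_norm_rpow hp0 hpt
    rw [hpr] at h1
    have h2 : (fun z => ‖‖g z‖ + ‖h z‖‖ ^ p) = fun z => (‖g z‖ + ‖h z‖) ^ p := by
      funext z
      rw [Real.norm_of_nonneg (by positivity)]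
    rw [h2] at h1
    exact h1.const_mul p
  have hgi : Integrable (fun z => ‖g z‖ ^ p) μ := by
    have h1 := hg.integrable_norm_rpow hp0 hpt
    rwa [hpr] at h1
  have hD : ∀ (z : α) (s : ℝ), HasDerivAt (fun s : ℝ => ‖g z + s • h z‖ ^ p)
      (p * inner ℝ (‖g z + s • h z‖ ^ (p - 2) • (g z + s • h z)) (h z)) s := by
    intro z s
    have h1 : HasDerivAt (fun s : ℝ => g z + s • h z) (h z) s := by
      have h2 : HasDerivAt (fun s : ℝ => s • h z) ((1 : ℝ) • h z) s :=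
        (hasDerivAt_id s).smul_const (h z)
      rw [one_smul] at h2
      exact h2.const_add (g z)
    have h3 := (hasFDerivAt_norm_rpow (g z + s • h z) hp).comp_hasDerivAt s h1
    have h4 : ((p * ‖g z + s • h z‖ ^ (p - 2)) • innerSL ℝ (g z + s • h z)) (h z) =
        p * inner ℝ (‖g z + s • h z‖ ^ (p - 2) • (g z + s • h z)) (h z) := by
      rw [ContinuousLinearMap.smul_apply, innerSL_apply_apply, real_inner_smul_left, smul_eq_mul]
      ring
    rw [h4] at h3
    exact h3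
  have hm : ∀ s : ℝ, AEStronglyMeasurable (fun z => g z + s • h z) μ := fun s =>
    hg.1.add (hh.1.const_smul s)
  have key := hasDerivAt_integral_of_dominated_loc_of_deriv_le (μ := μ)
    (F := fun (s : ℝ) (z : α) => ‖g z + s • h z‖ ^ p)
    (F' := fun (s : ℝ) (z : α) =>
      p * inner ℝ (‖g z + s • h z‖ ^ (p - 2) • (g z + s • h z)) (h z))
    (x₀ := (0 : ℝ)) (s := Metric.closedBall (0 : ℝ) 1)
    (bound := fun z => p * (‖g z‖ + ‖h z‖) ^ p)
    (Metric.closedBall_mem_nhds _ one_pos) ?_ ?_ ?_ ?_ hbi ?_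
  · obtain ⟨k1, k2⟩ := key
    simp only [zero_smul, add_zero] at k1 k2
    rw [integral_const_mul] at k2
    refine ⟨?_, k2⟩
    have k3 := k1.const_mul p⁻¹
    have hpne : p ≠ 0 := by linarith
    simpa only [← mul_assoc, inv_mul_cancel₀ hpne, one_mul] using k3
  · refine Filter.Eventually.of_forall fun s => ?_
    exact ((hm s).norm.aemeasurable.pow_const p).aestronglyMeasurable
  · simpa only [zero_smul, add_zero] using hgi
  · simp only [zero_smul, add_zero]
    refine AEStronglyMeasurable.const_mul ?_ p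
    refine AEStronglyMeasurable.inner ?_ hh.1
    exact ((hg.1.norm.aemeasurable.pow_const (p - 2)).aestronglyMeasurable).smul hg.1
  · refine Filter.Eventually.of_forall fun z s hs => ?_
    have hs1 : ‖s‖ ≤ 1 := by simpa using hs
    have h1 : ‖g z + s • h z‖ ≤ ‖g z‖ + ‖h z‖ := by
      refine (norm_add_le _ _).trans ?_
      rw [norm_smul]
      have := mul_le_mul_of_nonneg_right hs1 (norm_nonneg (h z))
      linarith
    rw [norm_mul, Real.norm_of_nonneg (by linarith : (0 : ℝ) ≤ p)]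
    refine mul_le_mul_of_nonneg_left ?_ (by linarith)
    refine (norm_inner_pow_le hp _ _).trans ?_
    have h2 : ‖g z + s • h z‖ ^ (p - 1) ≤ (‖g z‖ + ‖h z‖) ^ (p - 1) :=
      Real.rpow_le_rpow (norm_nonneg _) h1 (by linarith)
    have h3 : ‖h z‖ ≤ ‖g z‖ + ‖h z‖ := by
      have := norm_nonneg (g z)
      linarith
    have h4 : (0 : ℝ) ≤ ‖g z‖ + ‖h z‖ := by positivity
    calc ‖g z + s • h z‖ ^ (p - 1) * ‖h z‖
        ≤ (‖g z‖ + ‖h z‖) ^ (p - 1) * (‖g z‖ + ‖h z‖) :=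
          mul_le_mul h2 h3 (norm_nonneg _) (Real.rpow_nonneg h4 _)
      _ = (‖g z‖ + ‖h z‖) ^ p := by
          rw [← Real.rpow_add_one' h4 (by linarith)]
          congr 1
          ring
  · exact Filter.Eventually.of_forall fun z s _ => hD z s

end General

theorem pf_ELQ (hCLA : T_CLA) (hSOB : T_SOB) : T_ELQ := by
  intro n hn p S hp hpQ hS u g hE hu f h hf
  obtain ⟨hC, hm1, he1⟩ := hE
  have hQ0 : (0 : ℝ) < 2 * n + 2 := by positivity
  have hQp : (0 : ℝ) < 2 * n + 2 - p := by linarith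
  have hq1 : 1 < ps n p := by
    rw [ps, lt_div_iff₀ hQp]
    nlinarith
  have hth : 0 < th n p := div_pos hQp hQ0
  have hthq : th n p * ps n p = p := by
    rw [th, ps, div_mul_div_comm, div_eq_iff (mul_pos hQ0 hQp).ne']
    ring
  obtain ⟨iu, du⟩ := deriv_pow (μ := (volume : Measure (H n))) hq1 u f hC.1 hf.1
  obtain ⟨ig, dg⟩ := deriv_pow (μ := (volume : Measure (H n))) hp g h hC.2.1 hf.2.1
  have hae : ∀ᵐ z, inner ℝ (‖u z‖ ^ (ps n p - 2) • u z) (f z) = u z ^ (ps n p - 1) * f z := by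
    filter_upwards [hu] with z hz
    rw [Real.norm_of_nonneg hz, smul_eq_mul]
    have h1 : u z ^ (ps n p - 2) * u z = u z ^ (ps n p - 1) := by
      rw [← Real.rpow_add_one' hz (by linarith)]
      congr 1
      ring
    rw [h1]
    rw [RCLike.inner_apply, conj_trivial, mul_comm]
  refine ⟨ig, iu.congr hae, ?_⟩
  rw [integral_congr_ae hae] at du
  set A : ℝ := ∫ z, inner ℝ (‖g z‖ ^ (p - 2) • g z) (h z) with hA
  set B : ℝ := ∫ z, u z ^ (ps n p - 1) * f z with hB
  have hu0 : ∫ z, ‖u z + (0 : ℝ) • f z‖ ^ ps n p = 1 := by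
    simp only [zero_smul, add_zero, Real.norm_eq_abs]
    exact hm1
  have hJ : HasDerivAt (fun s : ℝ => (∫ z, ‖g z + s • h z‖ ^ p) -
      S * (∫ z, ‖u z + s • f z‖ ^ ps n p) ^ th n p)
      (p * A - S * ((ps n p * B) * th n p * 1 ^ (th n p - 1))) 0 := by
    have h1 := du.rpow_const (p := th n p) (Or.inl (by rw [hu0]; exact one_ne_zero))
    rw [hu0] at h1
    exact dg.sub (h1.const_mul S)
  have hJ0 : (∫ z, ‖g z + (0 : ℝ) • h z‖ ^ p) -
      S * (∫ z, ‖u z + (0 : ℝ) • f z‖ ^ ps n p) ^ th n p = 0 := by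
    rw [hu0, Real.one_rpow]
    simp only [zero_smul, add_zero]
    have : ∫ z, ‖g z‖ ^ p = S := he1
    rw [this]
    ring
  have hJn : ∀ s : ℝ, 0 ≤ (∫ z, ‖g z + s • h z‖ ^ p) -
      S * (∫ z, ‖u z + s • f z‖ ^ ps n p) ^ th n p := by
    intro s
    have h1 := hCLA n hn p hp hpQ u f g h 1 s hC hf
    have h2 := hSOB n hn p S hp hpQ hS _ _ h1
    simp only [one_mul, one_smul] at h2
    have h3 : ms (ps n p) (fun z => u z + s * f z) = ∫ z, ‖u z + s • f z‖ ^ ps n p := by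
      simp only [ms, Real.norm_eq_abs, smul_eq_mul]
    have h4 : en p (fun z => g z + s • h z) = ∫ z, ‖g z + s • h z‖ ^ p := rfl
    rw [h3, h4] at h2
    linarith
  have hmin : IsLocalMin (fun s : ℝ => (∫ z, ‖g z + s • h z‖ ^ p) -
      S * (∫ z, ‖u z + s • f z‖ ^ ps n p) ^ th n p) 0 := by
    refine Filter.Eventually.of_forall fun s => ?_
    have := hJn s
    change _ - _ ≤ _ - _
    rw [hJ0]
    exact this
  have h0 := hmin.hasDerivAt_eq_zero hJ
  rw [Real.one_rpow, mul_one] at h0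
  have h5 : p * (A - S * B) = 0 := by
    have h6 : ps n p * B * th n p = p * B := by
      rw [mul_comm, ← mul_assoc, hthq]
    rw [h6] at h0
    linarith
  rcases mul_eq_zero.1 h5 with h7 | h7
  · linarith
  · linarith

end Pool.Agent.H4.HB
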